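import Pool.Agent.Lib.MP_b5021c_nt.IfaceB

/-!
# Row B2F: graded parts of stable elements are bounded by the face
-/

namespace Pool.Agent.B5.H06

open Polynomial Filter Topology
open scoped LaurentPolynomial

section

variable {L : Type} [AddCommGroup L]

/-- `tau ↦ p(u r^mu tau^lam)` as a polynomial in `tau`. -/
noncomputable def qr (u : AddChar L Circle) (mu lam : L →+ ℤ) (r : ℂ) (p : CA L) : ℂ[X] :=
  p.coeff.sum fun a c => monomial (lam a).toNat (c * (u a : ℂ) * r ^ (mu a).toNat)

theorem qr_eval (u : AddChar L Circle) (mu lam : L →+ ℤ) (r t : ℂ) (p : CA L) :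
    (qr u mu lam r p).eval t = mev (ι := Bool) u (fun b => bif b then mu else lam)
      (fun b => bif b then r else t) p := by
  unfold qr mev
  rw [Finsupp.sum, Finsupp.sum, eval_finsetSum]
  refine Finset.sum_congr rfl fun a _ => ?_
  rw [eval_monomial, Fintype.prod_bool]
  simp only [cond_true, cond_false]
  ring

theorem qr_natDegree (u : AddChar L Circle) (mu lam : L →+ ℤ) (r : ℂ) (p : CA L) (m : ℕ)
    (hm : ∀ a ∈ p.coeff.support, (lam a).toNat ≤ m) : (qr u mu lam r p).natDegree ≤ m := by
  unfold qr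
  rw [Finsupp.sum]
  refine natDegree_sum_le_of_forall_le _ _ fun a ha => ?_
  exact (natDegree_monomial_le _).trans (hm a ha)

theorem qr_coeff (u : AddChar L Circle) (mu lam : L →+ ℤ) (r : ℂ) (p : CA L) (n : ℕ) :
    (qr u mu lam r p).coeff n = ∑ a ∈ p.coeff.support,
      if (lam a).toNat = n then p.coeff a * (u a : ℂ) * r ^ (mu a).toNat else 0 := by
  unfold qr
  rw [Finsupp.sum, finsetSum_coeff]
  refine Finset.sum_congr rfl fun a _ => ?_
  rw [coeff_monomial]

theorem evC_gpart (u : AddChar L Circle) (lam : L →+ ℤ) (c : ℤ) (p : CA L) :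
    evC u (gpart lam c p) = ∑ a ∈ p.coeff.support,
      if lam a = c then p.coeff a * (u a : ℂ) else 0 := by
  rw [evC_apply]
  unfold gpart
  rw [AddMonoidAlgebra.coeff_ofCoeff, Finsupp.sum, Finsupp.support_filter, Finset.sum_filter]
  refine Finset.sum_congr rfl fun a _ => ?_
  split_ifs with h
  · have h2 : (Finsupp.filter (fun a => lam a = c) p.coeff) a = p.coeff a :=
      Finsupp.filter_apply_pos (fun a => lam a = c) p.coeff h
    exact congrArg (fun x => x * (u a : ℂ)) h2
  · rfl

theorem qr_one_coeff (u : AddChar L Circle) (mu lam : L →+ ℤ) (p : CA L) (hl : Nn lam p) (n : ℕ) :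
    (qr u mu lam 1 p).coeff n = evC u (gpart lam n p) := by
  rw [qr_coeff, evC_gpart]
  refine Finset.sum_congr rfl fun a ha => ?_
  have h1 : 0 ≤ lam a := hl a ha
  have h2 : ((lam a).toNat = n) ↔ (lam a = (n : ℤ)) := by omega
  by_cases h : lam a = (n : ℤ)
  · rw [if_pos h, if_pos (h2.mpr h), one_pow, mul_one]
  · rw [if_neg h, if_neg fun h3 => h (h2.mp h3)]

/-- The bound at one good point. -/
theorem bound (multi : MultiS) (a3a : A3aS) [Module.Free ℤ L] [Module.Finite ℤ L] (p : CA L)
    (hp : StableC p) (lam : L →+ ℤ) (hl : Nn lam p) (m : ℕ)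
    (hm : ∀ a ∈ p.coeff.support, (lam a).toNat ≤ m) (c : ℤ) (u : AddChar L Circle) :
    ‖evC u (gpart lam c p)‖ ≤ (2 : ℝ) ^ m * ‖evC u (gpart lam 0 p)‖ := by
  obtain ⟨-, mu, hmu, -⟩ := id hp
  have hmu0 : Nn mu p := by
    intro a ha
    by_cases h : a = 0
    · rw [h, map_zero]
    · exact (hmu a ha h).le
  rcases lt_or_ge c 0 with hc | hc
  · have h1 : evC u (gpart lam c p) = 0 := by
      rw [evC_gpart]
      refine Finset.sum_eq_zero fun a ha => if_neg fun h => ?_
      have := hl a ha
      omega
    rw [h1, norm_zero]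
    positivity
  obtain ⟨n, rfl⟩ := Int.eq_ofNat_of_zero_le hc
  have hcont : ∀ k : ℕ, Continuous fun r : ℝ => ‖(qr u mu lam (r : ℂ) p).coeff k‖ := by
    intro k
    simp_rw [qr_coeff]
    refine Continuous.norm (continuous_finsetSum _ fun a _ => ?_)
    by_cases h : (lam a).toNat = k
    · simp only [if_pos h]
      fun_prop
    · simp only [if_neg h]
      exact continuous_const
  have key : ∀ r : ℝ, r ∈ Set.Ioo (0 : ℝ) 1 →
      ‖(qr u mu lam (r : ℂ) p).coeff n‖ ≤ (2 : ℝ) ^ m * ‖(qr u mu lam (r : ℂ) p).coeff 0‖ := by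
    intro r hr
    have hzf : ZF (qr u mu lam (r : ℂ) p) := by
      intro t ht
      rw [qr_eval]
      refine multi L p hp Bool _ ?_ ?_ u _ ?_
      · intro b
        cases b
        · exact hl
        · exact hmu0
      · intro a ha h0
        rw [Fintype.sum_bool]
        have h1 := hmu a ha h0
        have h2 := hl a ha
        simp only [cond_true, cond_false]
        omega
      · intro b
        cases b
        · exact ht
        · simp only [cond_true, Complex.norm_real, Real.norm_eq_abs]
          rw [abs_of_pos hr.1]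
          exact hr.2
    have h1 := a3a _ m (qr_natDegree u mu lam r p m hm) hzf n
    have h2 : ((m.choose n : ℕ) : ℝ) ≤ (2 : ℝ) ^ m := by
      exact_mod_cast Nat.choose_le_two_pow m n
    exact h1.trans (mul_le_mul_of_nonneg_right h2 (norm_nonneg _))
  have hmem : Set.Ioo (0 : ℝ) 1 ∈ 𝓝[<] (1 : ℝ) := Ioo_mem_nhdsLT one_pos
  have hlim := le_of_tendsto_of_tendsto
    ((hcont n).continuousAt.tendsto.mono_left (nhdsWithin_le_nhds (s := Set.Iio 1)))
    (((hcont 0).continuousAt.tendsto.mono_left (nhdsWithin_le_nhds (s := Set.Iio 1))).const_mul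
      ((2 : ℝ) ^ m))
    (Filter.eventually_of_mem hmem key)
  simp only [Complex.ofReal_one] at hlim
  rw [qr_one_coeff u mu lam p hl n, qr_one_coeff u mu lam p hl 0] at hlim
  exact hlim

end

/-- Continuity of the values of a coefficient. -/
theorem evR_cont {O : Type} [CommRing O] [Coef O] (q : RO O) :
    Continuous fun z : Circle => evR z q := by
  induction q using LaurentPolynomial.induction_on' with
  | add p q hp hq =>
    simp_rw [map_add]
    exact hp.add hq
  | C_mul_T n a =>
    have h : ∀ z : Circle, evR z (LaurentPolynomial.C a * LaurentPolynomial.T n : RO O) =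
        (Coef.emb a : ℂ) * ((z ^ n : Circle) : ℂ) := by
      intro z
      unfold evR
      rw [LaurentPolynomial.eval₂_C_mul_T, ← map_zpow]
      rfl
    simp_rw [h]
    exact continuous_const.mul (continuous_induced_dom.comp (continuous_zpow n))

theorem b2f (multi : MultiS) (a3a : A3aS) (stspec : StSpecS) (zfin : ZfinS) : B2S := by
  intro O _ _ _ _ L _ _ _ G lam hG hl
  classical
  set m : ℕ := G.coeff.support.sup fun a => (lam a).toNat with hm
  have hspec : ∀ (z : Circle) (c : ℤ), spec z (gpart lam c G) = gpart lam c (spec z G) := by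
    intro z c
    apply AddMonoidAlgebra.ext
    apply Finsupp.ext
    intro a
    rw [spec_coeff]
    unfold gpart
    rw [AddMonoidAlgebra.coeff_ofCoeff, AddMonoidAlgebra.coeff_ofCoeff, Finsupp.filter_apply,
      Finsupp.filter_apply]
    split_ifs
    · rw [spec_coeff]
    · rw [map_zero]
  have hsub : ∀ z : Circle, (spec z G).coeff.support ⊆ G.coeff.support := by
    intro z a ha
    rw [Finsupp.mem_support_iff, spec_coeff] at ha
    rw [Finsupp.mem_support_iff]
    intro h
    rw [h, map_zero] at ha
    exact ha rfl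
  have hev : ∀ (z : Circle) (u : AddChar L Circle) (c : ℤ),
      ev z u (gpart lam c G) = ∑ a ∈ G.coeff.support,
        if lam a = c then evR z (G.coeff a) * (u a : ℂ) else 0 := by
    intro z u c
    have h1 : ev z u (gpart lam c G) = evC u (gpart lam c (spec z G)) := by
      rw [← hspec]; rfl
    rw [h1, evC_gpart]
    simp_rw [spec_coeff]
    refine Finset.sum_subset (hsub z) fun a _ ha => ?_
    rw [Finsupp.notMem_support_iff, spec_coeff] at ha
    rw [ha, zero_mul]
    split_ifs <;> rfl
  refine ⟨2 ^ m, by positivity, fun c z u => ?_⟩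
  have hgood : ∀ z : Circle, evR z (G.coeff 0) ≠ 0 →
      ‖ev z u (gpart lam c G)‖ ≤ (2 : ℝ) ^ m * ‖ev z u (gpart lam 0 G)‖ := by
    intro z hz
    have h1 := bound multi a3a (spec z G) ((stspec O L G).1 hG z hz) lam
      (fun a ha => hl a (hsub z ha)) m
      (fun a ha => Finset.le_sup (f := fun a => (lam a).toNat) (hsub z ha)) c u
    rw [← hspec, ← hspec] at h1
    exact h1
  have hcont : ∀ c : ℤ, Continuous fun z : Circle => ev z u (gpart lam c G) := by
    intro c
    simp_rw [hev]
    refine continuous_finsetSum _ fun a _ => ?_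
    by_cases h : lam a = c
    · simp only [if_pos h]
      exact (evR_cont (G.coeff a)).mul continuous_const
    · simp only [if_neg h]
      exact continuous_const
  have hfin : {z : Circle | evR z (G.coeff 0) = 0}.Finite := zfin O _ hG.1
  have hnt : Nontrivial Circle := by
    refine ⟨⟨1, Circle.exp Real.pi, fun h => ?_⟩⟩
    have h1 := congrArg (fun w : Circle => (w : ℂ)) h
    simp only [Circle.coe_one, Circle.coe_exp, Complex.exp_pi_mul_I] at h1
    norm_num at h1
  have hdense : Dense ({z : Circle | evR z (G.coeff 0) = 0}ᶜ) := by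
    have := Dense.sdiff_finite (dense_univ (X := Circle)) hfin
    rwa [← Set.compl_eq_univ_sdiff] at this
  have hclosed : IsClosed {z : Circle | ‖ev z u (gpart lam c G)‖ ≤
      (2 : ℝ) ^ m * ‖ev z u (gpart lam 0 G)‖} :=
    isClosed_le (hcont c).norm (continuous_const.mul (hcont 0).norm)
  have hsubset : ({z : Circle | evR z (G.coeff 0) = 0}ᶜ) ⊆ {z : Circle |
      ‖ev z u (gpart lam c G)‖ ≤ (2 : ℝ) ^ m * ‖ev z u (gpart lam 0 G)‖} := fun z hz => hgood z hz
  have huniv := (hdense.mono hsubset).closure_eq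
  rw [hclosed.closure_eq] at huniv
  have hz : z ∈ {z : Circle | ‖ev z u (gpart lam c G)‖ ≤
      (2 : ℝ) ^ m * ‖ev z u (gpart lam 0 G)‖} := huniv ▸ Set.mem_univ z
  exact hz

end Pool.Agent.B5.H06
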