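import Pool.Agent.Lib.MP_b5021c_nt.IfaceS1

/-!
# Board b5, row S_SEL: selection at one light ray with two adjacent loads
-/

namespace Pool.Agent.B5.H06

open scoped LaurentPolynomial
open Pool.Agent.B5

/-- (SEL) from the rows it uses. -/
theorem sel (hFDS : FDS) (hLs1 : Ls1S) (hApr : AprS) (hBpr : BprS) (hAdj : AdjSyS)
    (hRk : RkS) : SelS := by
  intro O _ _ _ _ P L _ _ _ _ _ phi D S i0 e₁ e₂ h hDD h3 hRay hadj hv1 hv2 hmn hdrop
  have hk : co phi i0 ≠ 0 := by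
    intro h0
    rw [h0] at h
    simp at h
  have hfk : Module.finrank ℤ (Ker (co phi i0)) + 1 = Module.finrank ℤ L := (hRk L L).1 _ hk
  have hcc1 : CC phi D S i0 e₁ := ⟨hDD, by omega, hRay, h, hv1⟩
  have hcc2 : CC phi D S i0 e₂ := ⟨hDD, by omega, hRay, h, hv2⟩
  have hle : ∀ T : Set (Ker (co phi i0)), rk T ≤ Module.finrank ℤ (Ker (co phi i0)) :=
    (hRk (Ker (co phi i0)) (Ker (co phi i0))).2.2.1
  obtain ⟨hadj', hne, hmean⟩ := hAdj O e₁ e₂ hadj
  obtain ⟨c₁, n₁, G₁, hfd1⟩ := hFDS O P L phi D S i0 e₁ h hcc1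
  obtain ⟨c₂, n₂, G₂, hfd2⟩ := hFDS O P L phi D S i0 e₂ h hcc2
  by_cases hd1 : Module.finrank ℤ L = rk (supp (cl (co phi i0) S h e₁ D)) + 1
  · have hr1 : rk (supp (cl (co phi i0) S h e₁ D)) = Module.finrank ℤ (Ker (co phi i0)) := by
      omega
    by_cases hg1 : snp phi S i0 G₁ = ∅ ∨
        ¬ Simple (D.coeff 0) (D.coeff 0 + (e₁ : RO O) * D.coeff S) c₁ G₁
    · exact ⟨e₁, Or.inl rfl, hd1, c₁, n₁, G₁, hfd1, hg1⟩
    · obtain ⟨hs1, hsi1⟩ := not_or.mp hg1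
      have hsi1' := not_not.mp hsi1
      have hc1 := hLs1 O P L phi D S i0 e₁ h c₁ n₁ G₁ hfd1 hsi1'
      have hd2 : Module.finrank ℤ L = rk (supp (cl (co phi i0) S h e₂ D)) + 1 := by
        by_contra hd2
        have hlt : rk (supp (cl (co phi i0) S h e₂ D)) <
            Module.finrank ℤ (Ker (co phi i0)) := by
          have := hle (supp (cl (co phi i0) S h e₂ D))
          omega
        exact hs1 (hApr O P L phi D S i0 e₁ h c₁ n₁ G₁ hfd1 hr1 e₂ hadj' hv2 hmn hlt)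
      have hr2 : rk (supp (cl (co phi i0) S h e₂ D)) =
          Module.finrank ℤ (Ker (co phi i0)) := by
        omega
      refine ⟨e₂, Or.inr rfl, hd2, c₂, n₂, G₂, hfd2, ?_⟩
      by_contra hg2
      obtain ⟨hs2, hsi2⟩ := not_or.mp hg2
      have hc2 := hLs1 O P L phi D S i0 e₂ h c₂ n₂ G₂ hfd2 (not_not.mp hsi2)
      rcases hBpr O P L phi D S i0 e₁ e₂ h c₁ c₂ n₁ n₂ G₁ G₂ hfd1 hfd2 hne h3 hr1 hr2 hc1 hc2
        with h' | h'
      · exact hs1 h'
      · exact hs2 h'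
  · have hd2 : Module.finrank ℤ L = rk (supp (cl (co phi i0) S h e₂ D)) + 1 :=
      hdrop.resolve_left hd1
    have hr2 : rk (supp (cl (co phi i0) S h e₂ D)) =
        Module.finrank ℤ (Ker (co phi i0)) := by
      omega
    have hlt : rk (supp (cl (co phi i0) S h e₁ D)) <
        Module.finrank ℤ (Ker (co phi i0)) := by
      have := hle (supp (cl (co phi i0) S h e₁ D))
      omega
    have hm2 : ‖mn ((e₂ : RO O) * D.coeff S) (D.coeff 0)‖ ≤ 1 / 4 := by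
      rw [← hmean]
      exact hmn
    exact ⟨e₂, Or.inr rfl, hd2, c₂, n₂, G₂, hfd2,
      Or.inl (hApr O P L phi D S i0 e₂ h c₂ n₂ G₂ hfd2 hr2 e₁ hadj hv1 hm2 hlt)⟩

end Pool.Agent.B5.H06
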