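import Pool.Agent.Lib.MP_b5021c_nt.IfaceS4

/-!
# Board b5, row U_SLX: selection at one ray with a pair of loads
-/

namespace Pool.Agent.B5.H06

open scoped LaurentPolynomial
open Pool.Agent.B5

/-- The two loads of a cross pair are different. -/
theorem cross_ne {O : Type} [CommRing O] [IsDomain O] [Coef O] {Q F : RO O} {e₁ e₂ : (RO O)ˣ}
    (hc : Cross Q F e₁ e₂) : e₁ ≠ e₂ := by
  obtain ⟨_, _, w, k, hk, he⟩ := hc
  intro h12
  rw [h12] at he
  have h1 : (1 : RO O) = LaurentPolynomial.C w * LaurentPolynomial.T k := by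
    have h2 := congrArg (fun x : RO O => x * ((e₂⁻¹ : (RO O)ˣ) : RO O)) he
    simpa only [mul_assoc, Units.mul_inv, mul_one] using h2
  have h3 : (1 : RO O).coeff 0 =
      (LaurentPolynomial.C w * LaurentPolynomial.T k : RO O).coeff 0 := by
    rw [← h1]
  have h4 : (LaurentPolynomial.C w * LaurentPolynomial.T k : RO O) =
      AddMonoidAlgebra.single k w := by
    rw [LaurentPolynomial.single_eq_C_mul_T]
  rw [h4] at h3
  have h5 : (AddMonoidAlgebra.single k w : RO O).coeff 0 = 0 := by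
    rw [AddMonoidAlgebra.coeff_single, Finsupp.single_apply, if_neg hk]
  have h6 : (1 : RO O).coeff 0 = 1 := by
    rw [AddMonoidAlgebra.one_def, AddMonoidAlgebra.coeff_single, Finsupp.single_apply,
      if_pos rfl]
  rw [h5, h6] at h3
  exact one_ne_zero h3

/-- (SLX) from the rows it uses. -/
theorem slx (hSel : SelS) (hFDS : FDS) (hLs1 : Ls1S) (hCro : CroS) (hBpr : BprS)
    (hRk : RkS) : SlxS := by
  intro O _ _ _ _ P L _ _ _ _ _ phi D S i0 e₁ e₂ h hDD h3 hRay hv1 hv2 hpr hdrop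
  rcases hpr with ⟨hadj, hmn⟩ | hcr
  · exact hSel O P L phi D S i0 e₁ e₂ h hDD h3 hRay hadj hv1 hv2 hmn hdrop
  have hne : e₁ ≠ e₂ := cross_ne hcr
  have hk : co phi i0 ≠ 0 := by
    intro h0
    rw [h0] at h
    simp at h
  have hfk : Module.finrank ℤ (Ker (co phi i0)) + 1 = Module.finrank ℤ L := (hRk L L).1 _ hk
  have hcc1 : CC phi D S i0 e₁ := ⟨hDD, by omega, hRay, h, hv1⟩
  have hcc2 : CC phi D S i0 e₂ := ⟨hDD, by omega, hRay, h, hv2⟩
  have hle : ∀ T : Set (Ker (co phi i0)), rk T ≤ Module.finrank ℤ (Ker (co phi i0)) :=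
    (hRk (Ker (co phi i0)) (Ker (co phi i0))).2.2.1
  obtain ⟨c₁, n₁, G₁, hfd1⟩ := hFDS O P L phi D S i0 e₁ h hcc1
  obtain ⟨c₂, n₂, G₂, hfd2⟩ := hFDS O P L phi D S i0 e₂ h hcc2
  by_cases hd1 : Module.finrank ℤ L = rk (supp (cl (co phi i0) S h e₁ D)) + 1
  · have hr1 : rk (supp (cl (co phi i0) S h e₁ D)) = Module.finrank ℤ (Ker (co phi i0)) := by
      omega
    by_cases hg1 : snp phi S i0 G₁ = ∅ ∨
        ¬ Simple (D.coeff 0) (D.coeff 0 + (e₁ : RO O) * D.coeff S) c₁ G₁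
    · exact ⟨e₁, Or.inl rfl, hd1, c₁, n₁, G₁, hfd1, hg1⟩
    · obtain ⟨hs1, hsi1⟩ := not_or.mp hg1
      have hsi1' := not_not.mp hsi1
      have hc1 := hLs1 O P L phi D S i0 e₁ h c₁ n₁ G₁ hfd1 hsi1'
      have hd2 : Module.finrank ℤ L = rk (supp (cl (co phi i0) S h e₂ D)) + 1 := by
        by_contra hd2
        have hlt : rk (supp (cl (co phi i0) S h e₂ D)) <
            Module.finrank ℤ (Ker (co phi i0)) := by
          have := hle (supp (cl (co phi i0) S h e₂ D))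
          omega
        exact hs1 (hCro O P L phi D S i0 e₁ h c₁ n₁ G₁ hfd1 hr1 hsi1' e₂ hv2 (Or.inl hcr) hlt)
      have hr2 : rk (supp (cl (co phi i0) S h e₂ D)) =
          Module.finrank ℤ (Ker (co phi i0)) := by
        omega
      refine ⟨e₂, Or.inr rfl, hd2, c₂, n₂, G₂, hfd2, ?_⟩
      by_contra hg2
      obtain ⟨hs2, hsi2⟩ := not_or.mp hg2
      have hc2 := hLs1 O P L phi D S i0 e₂ h c₂ n₂ G₂ hfd2 (not_not.mp hsi2)
      rcases hBpr O P L phi D S i0 e₁ e₂ h c₁ c₂ n₁ n₂ G₁ G₂ hfd1 hfd2 hne h3 hr1 hr2 hc1 hc2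
        with h' | h'
      · exact hs1 h'
      · exact hs2 h'
  · have hd2 : Module.finrank ℤ L = rk (supp (cl (co phi i0) S h e₂ D)) + 1 :=
      hdrop.resolve_left hd1
    have hr2 : rk (supp (cl (co phi i0) S h e₂ D)) =
        Module.finrank ℤ (Ker (co phi i0)) := by
      omega
    have hlt : rk (supp (cl (co phi i0) S h e₁ D)) <
        Module.finrank ℤ (Ker (co phi i0)) := by
      have := hle (supp (cl (co phi i0) S h e₁ D))
      omega
    refine ⟨e₂, Or.inr rfl, hd2, c₂, n₂, G₂, hfd2, ?_⟩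
    by_cases hsi2 : Simple (D.coeff 0) (D.coeff 0 + (e₂ : RO O) * D.coeff S) c₂ G₂
    · exact Or.inl (hCro O P L phi D S i0 e₂ h c₂ n₂ G₂ hfd2 hr2 hsi2 e₁ hv1 (Or.inr hcr) hlt)
    · exact Or.inr hsi2

end Pool.Agent.B5.H06
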