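import Pool.Agent.Lib.MP_b5021c_nt.IfaceE2

/-!
Row E2_TPC: constant terms in the partial fraction decomposition of a terminal pair.
-/

namespace Pool.Agent.B5.H06

open AddMonoidAlgebra
open Pool.Agent.B5.H71 (em em_coeff em_coeff_not)

section

variable {k : Type} [CommRing k] {L : Type} [AddCommGroup L]

/-- all exponents of `y` have `lam ≥ m` -/
def Hi (lam : L →+ ℤ) (m : ℤ) (y : AddMonoidAlgebra k L) : Prop :=
  ∀ a, y.coeff a ≠ 0 → m ≤ lam a

theorem Hi.mono {lam : L →+ ℤ} {m m' : ℤ} {y : AddMonoidAlgebra k L} (h : Hi lam m y)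
    (hm : m' ≤ m) : Hi lam m' y := fun a ha => hm.trans (h a ha)

theorem hi_zero (lam : L →+ ℤ) (m : ℤ) : Hi lam m (0 : AddMonoidAlgebra k L) := by
  intro a ha
  exact absurd (by simp) ha

theorem Hi.add {lam : L →+ ℤ} {m : ℤ} {x y : AddMonoidAlgebra k L} (hx : Hi lam m x)
    (hy : Hi lam m y) : Hi lam m (x + y) := by
  intro a ha
  by_cases h : x.coeff a = 0
  · apply hy a
    intro h2
    apply ha
    rw [coeff_add, Finsupp.add_apply, h, h2, add_zero]
  · exact hx a h

theorem Hi.neg {lam : L →+ ℤ} {m : ℤ} {x : AddMonoidAlgebra k L} (hx : Hi lam m x) :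
    Hi lam m (-x) := by
  intro a ha
  apply hx a
  intro h
  apply ha
  rw [coeff_neg, Finsupp.neg_apply, h, neg_zero]

theorem Hi.mul {lam : L →+ ℤ} {m m' : ℤ} {x y : AddMonoidAlgebra k L} (hx : Hi lam m x)
    (hy : Hi lam m' y) : Hi lam (m + m') (x * y) := by
  intro a ha
  rw [coeff_mul_apply_left] at ha
  obtain ⟨c, hc, h2⟩ := Finset.exists_ne_zero_of_sum_ne_zero ha
  have h3 : x.coeff c ≠ 0 := Finsupp.mem_support_iff.mp hc
  have h4 : y.coeff (-c + a) ≠ 0 := by
    intro h5
    apply h2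
    simp only [h5, mul_zero]
  have h5 := hx c h3
  have h6 := hy (-c + a) h4
  rw [map_add, map_neg] at h6
  linarith

theorem Hi.sum {ι : Type} {lam : L →+ ℤ} {m : ℤ} (s : Finset ι) (x : ι → AddMonoidAlgebra k L)
    (hx : ∀ i ∈ s, Hi lam m (x i)) : Hi lam m (∑ i ∈ s, x i) := by
  classical
  induction s using Finset.induction_on with
  | empty =>
    rw [Finset.sum_empty]
    exact hi_zero lam m
  | insert i s hi ih =>
    rw [Finset.sum_insert hi]
    exact (hx i (Finset.mem_insert_self i s)).add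
      (ih fun j hj => hx j (Finset.mem_insert_of_mem hj))

theorem Hi.coeff_zero {lam : L →+ ℤ} {m : ℤ} {x : AddMonoidAlgebra k L} (hx : Hi lam m x)
    (hm : 0 < m) : x.coeff 0 = 0 := by
  by_contra h
  have := hx 0 h
  rw [map_zero] at this
  omega

/-- products of elements close to one -/
theorem hi_prod {ι : Type} {lam : L →+ ℤ} {m : ℤ} (hm : 0 ≤ m) (s : Finset ι)
    (x : ι → AddMonoidAlgebra k L) (hx : ∀ i ∈ s, Hi lam m (x i - 1)) :
    Hi lam m (∏ i ∈ s, x i - 1) := by
  classical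
  induction s using Finset.induction_on with
  | empty =>
    rw [Finset.prod_empty, sub_self]
    exact hi_zero lam m
  | insert i s hi ih =>
    rw [Finset.prod_insert hi]
    have h1 := hx i (Finset.mem_insert_self i s)
    have h2 := ih fun j hj => hx j (Finset.mem_insert_of_mem hj)
    have e : x i * ∏ j ∈ s, x j - 1 = (x i - 1) * (∏ j ∈ s, x j - 1) + (x i - 1) +
        (∏ j ∈ s, x j - 1) := by ring
    rw [e]
    exact (((h1.mul h2).mono (by linarith)).add h1).add h2

theorem exists_hi (lam : L →+ ℤ) (x : AddMonoidAlgebra k L) : ∃ M : ℕ, Hi lam (-(M : ℤ)) x := by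
  refine ⟨∑ a ∈ x.coeff.support, (lam a).natAbs, ?_⟩
  intro a ha
  have h1 : (lam a).natAbs ≤ ∑ a ∈ x.coeff.support, (lam a).natAbs :=
    Finset.single_le_sum (f := fun a => (lam a).natAbs) (fun _ _ => Nat.zero_le _)
      (Finsupp.mem_support_iff.mpr ha)
  have h2 : -((lam a).natAbs : ℤ) ≤ lam a := by omega
  have h3 : ((lam a).natAbs : ℤ) ≤ ((∑ a ∈ x.coeff.support, (lam a).natAbs : ℕ) : ℤ) := by
    exact_mod_cast h1
  omega

theorem hi_pow {lam : L →+ ℤ} (b : L) (hb : 0 < lam b) (c : k) (N : ℕ) :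
    Hi lam N ((single b c : AddMonoidAlgebra k L) ^ N) := by
  classical
  intro a ha
  rw [single_pow] at ha
  have h1 : a = N • b := by
    by_contra h
    apply ha
    rw [coeff_single, Finsupp.single_apply, if_neg (Ne.symm h)]
  rw [h1, map_nsmul, nsmul_eq_mul]
  nlinarith

theorem mul_pow_coeff (f : L →+ ℤ) (b : L) (hb : f b = 1) (c : k) (Q : AddMonoidAlgebra k L)
    (hQ : ∀ a, Q.coeff a ≠ 0 → f a = 0) (N : ℕ) (hN : 0 < N) :
    (Q * (single b c : AddMonoidAlgebra k L) ^ N).coeff 0 = 0 := by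
  rw [single_pow, coeff_mul_single_apply]
  have h : Q.coeff (0 + -(N • b)) = 0 := by
    by_contra h
    have h2 := hQ _ h
    rw [zero_add, map_neg, map_nsmul, hb, nsmul_eq_mul, mul_one] at h2
    omega
  rw [h, zero_mul]

theorem tpc_gen (lam : L →+ ℤ) (B R : AddMonoidAlgebra k L) (n : ℕ) (b : Fin n → L)
    (f : Fin n → (L →+ ℤ)) (ε : Fin n → k) (Q : Fin n → AddMonoidAlgebra k L)
    (hf : ∀ i, f i (b i) = 1) (hb : ∀ i, 0 < lam (b i))
    (hB0 : ∀ a, B.coeff a ≠ 0 → a ≠ 0 → 0 < lam a)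
    (hQ : ∀ i a, (Q i).coeff a ≠ 0 → f i a = 0)
    (hB : B = ∑ i, Q i * ∏ j ∈ Finset.univ.erase i, (1 - single (b j) (ε j)) +
      (∏ j, (1 - single (b j) (ε j))) * R) :
    B.coeff 0 = ∑ i, (Q i).coeff 0 + R.coeff 0 := by
  classical
  obtain ⟨MR, hMR⟩ := exists_hi lam R
  choose MQ hMQ using fun i => exists_hi lam (Q i)
  set N : ℕ := MR + ∑ i, MQ i + 1 with hN
  have hNQ : ∀ i, MQ i < N := by
    intro i
    have := Finset.single_le_sum (f := MQ) (fun _ _ => Nat.zero_le _) (Finset.mem_univ i)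
    omega
  have hNR : MR < N := by omega
  set x : Fin n → AddMonoidAlgebra k L := fun j => single (b j) (ε j) with hx
  set G : Fin n → AddMonoidAlgebra k L := fun j => ∑ t ∈ Finset.range N, x j ^ t with hG
  have hxN : ∀ j t, Hi lam (t : ℕ) (x j ^ t) := fun j t => hi_pow (b j) (hb j) (ε j) t
  have hgeo : ∀ j, (1 - x j) * G j = 1 - x j ^ N := fun j => mul_neg_geom_sum (x j) N
  have hG1 : ∀ j, Hi lam 1 (G j - 1) := by
    intro j
    have e : G j - 1 = ∑ t ∈ Finset.range (N - 1), x j ^ (t + 1) := by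
      simp only [hG]
      have hN1 : N = (N - 1) + 1 := by omega
      rw [hN1, Finset.sum_range_succ']
      simp
    rw [e]
    apply Hi.sum
    intro t _
    exact (hxN j (t + 1)).mono (by push_cast; omega)
  have hG0 : ∀ j, Hi lam 0 (G j) := by
    intro j
    simp only [hG]
    apply Hi.sum
    intro t _
    exact (hxN j t).mono (by positivity)
  have hP : ∀ s : Finset (Fin n), Hi lam N (∏ j ∈ s, (1 - x j ^ N) - 1) := by
    intro s
    apply hi_prod (by positivity)
    intro j _
    have e : 1 - x j ^ N - 1 = -(x j ^ N) := by ring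
    rw [e]
    exact (hxN j N).neg
  -- the product identity
  have hmul : B * ∏ j, G j = ∑ i, Q i * G i * ∏ j ∈ Finset.univ.erase i, (1 - x j ^ N) +
      (∏ j, (1 - x j ^ N)) * R := by
    rw [hB, add_mul, Finset.sum_mul]
    congr 1
    · apply Finset.sum_congr rfl
      intro i _
      rw [← Finset.mul_prod_erase Finset.univ G (Finset.mem_univ i)]
      have e : ∏ j ∈ Finset.univ.erase i, (1 - x j ^ N) =
          (∏ j ∈ Finset.univ.erase i, (1 - x j)) * ∏ j ∈ Finset.univ.erase i, G j := by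
        rw [← Finset.prod_mul_distrib]
        exact Finset.prod_congr rfl fun j _ => (hgeo j).symm
      rw [e]
      ring
    · have e : ∏ j, (1 - x j ^ N) = (∏ j, (1 - x j)) * ∏ j, G j := by
        rw [← Finset.prod_mul_distrib]
        exact Finset.prod_congr rfl fun j _ => (hgeo j).symm
      rw [e]
      ring
  have h1 : (B * ∏ j, G j).coeff 0 = B.coeff 0 := by
    have hBn : Hi lam 0 B := by
      intro a ha
      by_cases h : a = 0
      · rw [h, map_zero]
      · exact (hB0 a ha h).le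
    have h2 := hi_prod (by norm_num) Finset.univ G (fun j _ => hG1 j)
    have h3 := (hBn.mul h2).coeff_zero (by norm_num)
    have e : B * ∏ j, G j = B + B * (∏ j, G j - 1) := by ring
    rw [e, coeff_add, Finsupp.add_apply, h3, add_zero]
  have h2 : ((∏ j, (1 - x j ^ N)) * R).coeff 0 = R.coeff 0 := by
    have h3 := ((hP Finset.univ).mul hMR).coeff_zero (by omega)
    have e : (∏ j, (1 - x j ^ N)) * R = R + (∏ j, (1 - x j ^ N) - 1) * R := by ring
    rw [e, coeff_add, Finsupp.add_apply, h3, add_zero]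
  have h3 : ∀ i, (Q i * G i * ∏ j ∈ Finset.univ.erase i, (1 - x j ^ N)).coeff 0 =
      (Q i).coeff 0 := by
    intro i
    have hNi := hNQ i
    have h4 := (((hMQ i).mul (hG0 i)).mul (hP (Finset.univ.erase i))).coeff_zero (by omega)
    have e : Q i * G i * ∏ j ∈ Finset.univ.erase i, (1 - x j ^ N) =
        Q i * G i + Q i * G i * (∏ j ∈ Finset.univ.erase i, (1 - x j ^ N) - 1) := by ring
    rw [e, coeff_add, Finsupp.add_apply, h4, add_zero]
    simp only [hG]
    rw [Finset.mul_sum, coeff_sum, Finsupp.finsetSum_apply, Finset.sum_eq_single 0]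
    · rw [pow_zero, mul_one]
    · intro t _ ht
      exact mul_pow_coeff (f i) (b i) (hf i) (ε i) (Q i) (hQ i) t (Nat.pos_of_ne_zero ht)
    · intro h
      exact absurd (Finset.mem_range.mpr (by omega)) h
  rw [← h1, hmul, coeff_add, Finsupp.add_apply, h2, coeff_sum, Finsupp.finsetSum_apply]
  congr 1
  exact Finset.sum_congr rfl fun i _ => h3 i

end

theorem tpc : TpcS := by
  intro O _ _ _ _ L _ _ _ lam B R n b f e q hf hb hB0 hB
  have h := tpc_gen lam B R n b f (fun i => ((e i)⁻¹ : (RO O)ˣ)) (fun i => em (Ker (f i)) (q i))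
    (fun i => by rw [hf i i, if_pos rfl]) hb
    (fun a ha ha0 => hB0 a (Finsupp.mem_support_iff.mpr ha) ha0)
    (fun i a ha => by
      by_contra h
      exact ha (em_coeff_not (Ker (f i)) (q i) a (fun h2 => h h2)))
    hB
  rw [h]
  congr 1
  apply Finset.sum_congr rfl
  intro i _
  exact em_coeff (Ker (f i)) (q i) 0

end Pool.Agent.B5.H06
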